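import Pool.Agent.H78.S.Targets

/-!
# sgt_modules, BGA: full rank in irreducible sets (helper50)
-/

set_option autoImplicit false

namespace Pool.Agent.H50.S

open Set Pool.Agent.H77.BC Pool.Agent.H78.S

variable {M : Type} (U : RU M) {α : Type} [Cod M α]

theorem bg_mono {A X X' : Set α} (h : Big U A X) (hX : X ⊆ X') : Big U A X' := by
  obtain ⟨Y, h1, h2, h3, h4, h5⟩ := h
  exact ⟨Y, h1, h2, h3, h4.trans hX, h5⟩

theorem bg_split {A Y X : Set α} (hY : U.D Y) (hne : Y.Nonempty) (hYA : Y ⊆ A)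
    (hr : U.R A ≤ U.R Y) (hX : U.D X) : Big U A (Y ∩ X) ∨ Big U A (Y \ X) := by
  rcases (Y ∩ X).eq_empty_or_nonempty with h0 | h0
  · right
    refine ⟨Y, hY, hne, hYA, ?_, hr⟩
    intro y hy
    exact ⟨hy, fun h => (h0 ▸ (⟨hy, h⟩ : y ∈ Y ∩ X) : y ∈ (∅ : Set α))⟩
  rcases (Y \ X).eq_empty_or_nonempty with h1 | h1
  · left
    refine ⟨Y, hY, hne, hYA, ?_, hr⟩
    intro y hy
    refine ⟨hy, ?_⟩
    by_contra h
    exact (h1 ▸ (⟨hy, h⟩ : y ∈ Y \ X) : y ∈ (∅ : Set α))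
  have h2 := (l_RKA U).union (D_inter hY hX) (D_diff hY hX) h0 h1
  rw [inter_union_sdiff] at h2
  rw [h2] at hr
  rcases le_max_iff.1 hr with h | h
  · left
    exact ⟨Y ∩ X, D_inter hY hX, h0, inter_subset_left.trans hYA, subset_rfl, h⟩
  · right
    exact ⟨Y \ X, D_diff hY hX, h1, sdiff_subset.trans hYA, subset_rfl, h⟩

theorem pf_BGA : T_BGA := by
  intro M U α _ A hA
  obtain ⟨hD, hne, hI⟩ := hA
  have p4 : ∀ X : Set α, Big U A X → ¬ Big U A (A \ X) := by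
    intro X h h'
    obtain ⟨y, hy, hy'⟩ := hI X (A \ X) h h'
    exact hy'.2 hy
  have p2 : ∀ X : Set α, U.D X → Big U A X ∨ Big U A (A \ X) := by
    intro X hX
    rcases bg_split U hD hne subset_rfl le_rfl hX with h | h
    · exact Or.inl (bg_mono U h inter_subset_right)
    · exact Or.inr h
  refine ⟨?_, p2, ?_, p4⟩
  · rintro X Y ⟨X1, a1, a2, a3, a4, a5⟩ ⟨Y1, b1, b2, b3, b4, b5⟩
    rcases bg_split U a1 a2 a3 a5 b1 with h | h
    · exact bg_mono U h (inter_subset_inter a4 b4)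
    · obtain ⟨y, hy, hy'⟩ := hI (X1 \ Y1) Y1 h ⟨Y1, b1, b2, b3, subset_rfl, b5⟩
      exact (hy.2 hy').elim
  · intro X hX hXA
    constructor
    · intro h hn
      by_contra h'
      rw [not_lt] at h'
      exact p4 X h ⟨A \ X, D_diff hD hX, hn, sdiff_subset, subset_rfl, h'⟩
    · intro h
      rcases p2 X hX with h1 | ⟨Y, a1, a2, a3, a4, a5⟩
      · exact h1
      · exfalso
        have h3 := h (a2.mono a4)
        have h4 := (l_RKA U).mono a1 (D_diff hD hX) a2 a4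
        omega

end Pool.Agent.H50.S
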