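import Pool.Agent.H78.S.Targets

/-!
# sgt_modules, BRA: the braid relation (helper50)
-/

set_option autoImplicit false

namespace Pool.Agent.H50.S

open Set Pool.Agent.H77.BC Pool.Agent.H78.S

theorem pf_BRA : T_BRA := by
  intro K _ σ h y
  rcases eq_or_ne y 0 with rfl | hy
  · exact map_zero σ
  · have h1 := h y 1 hy one_ne_zero
    rw [div_one, map_one, map_one, div_one] at h1
    rw [RingEquiv.symm_apply_eq] at h1
    exact h1.symm

end Pool.Agent.H50.S
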