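import Pool.Agent.H78.S.Targets

/-!
# sgt_modules, CCA: the connected component (helper50)
-/

set_option autoImplicit false

namespace Pool.Agent.H50.S

open Set Pool.Agent.H77.BC Pool.Agent.H78.S

theorem pf_CCA : T_CCA := by
  intro M U Γ _ _ _ H hH
  classical
  let I : Type := {L : Subgroup Γ // L ≤ H ∧ U.D (L : Set Γ) ∧ L.relIndex H ≠ 0}
  let s : I → Subgroup Γ := fun L => L.1
  obtain ⟨J, hJ⟩ := l_GRD U (I := I) s (fun i => i.2.2.1)
  have key : ∀ J : Finset I, U.D ((H ⊓ ⨅ j ∈ J, s j : Subgroup Γ) : Set Γ) ∧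
      (H ⊓ ⨅ j ∈ J, s j : Subgroup Γ).relIndex H ≠ 0 := by
    intro J
    induction J using Finset.induction_on with
    | empty =>
      have e : (H ⊓ ⨅ j ∈ (∅ : Finset I), s j : Subgroup Γ) = H := by simp
      rw [e]
      refine ⟨hH, ?_⟩
      rw [Subgroup.relIndex_self]
      exact one_ne_zero
    | insert a J _ ih =>
      have e : (H ⊓ ⨅ j ∈ insert a J, s j : Subgroup Γ) = s a ⊓ (H ⊓ ⨅ j ∈ J, s j) := by
        rw [Finset.iInf_insert]
        ac_rfl
      rw [e]
      refine ⟨?_, ?_⟩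
      · rw [Subgroup.coe_inf]
        exact D_inter a.2.2.1 ih.1
      · exact Subgroup.relIndex_inf_ne_zero a.2.2.2 ih.2
  have hcc : cc U H = H ⊓ ⨅ j ∈ J, s j := by
    apply le_antisymm
    · exact sInf_le ⟨inf_le_left, key J⟩
    · exact le_sInf fun L hL => inf_le_right.trans (hJ ⟨L, hL⟩)
  have hD : U.D (cc U H : Set Γ) := by
    rw [hcc]
    exact (key J).1
  have hi : (cc U H).relIndex H ≠ 0 := by
    rw [hcc]
    exact (key J).2
  have hle : cc U H ≤ H := by
    rw [hcc]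
    exact inf_le_left
  refine ⟨hle, ⟨hD, ?_⟩, hi, ?_⟩
  · intro L hL hLD hr
    refine le_antisymm hL ?_
    have h1 := (l_GRA U (cc U H) L hD hLD hL).2 hr
    have h2 : L.relIndex H ≠ 0 := Subgroup.relIndex_ne_zero_trans h1 hi
    exact sInf_le ⟨hL.trans hle, hLD, h2⟩
  · apply le_antisymm
    · exact (l_RKA U).mono hD hH ⟨1, (cc U H).one_mem⟩ hle
    · exact (l_GRA U H (cc U H) hH hD hle).1 hi

end Pool.Agent.H50.S
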