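import Pool.Agent.H78.S.Targets

/-!
# sgt_modules, CCB: connected subgroups (helper50)
-/

set_option autoImplicit false

namespace Pool.Agent.H50.S

open Set Pool.Agent.H77.BC Pool.Agent.H78.S

theorem pf_CCB (_hCCA : T_CCA) : T_CCB := by
  intro M U Γ _ _ _ H K hH hK hKH
  have h0 : K ≤ cc U H := by
    refine le_sInf ?_
    rintro L ⟨hL, hLD, hi⟩
    have h1 : (L ⊓ K).relIndex K ≠ 0 := by
      rw [Subgroup.inf_relIndex_right]
      intro h
      exact hi (Subgroup.relIndex_eq_zero_of_le_right hKH h)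
    have hD : U.D ((L ⊓ K : Subgroup Γ) : Set Γ) := by
      rw [Subgroup.coe_inf]
      exact D_inter hLD hK.1
    have h2 := (l_GRA U K (L ⊓ K) hK.1 hD inf_le_right).1 h1
    have h3 := hK.2 (L ⊓ K) inf_le_right hD h2
    rw [← h3]
    exact inf_le_left
  refine ⟨h0, fun hr => le_antisymm h0 ?_⟩
  exact sInf_le ⟨hKH, hK.1, (l_GRA U H K hH hK.1 hKH).2 hr⟩

end Pool.Agent.H50.S
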