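import Pool.Agent.H78.S.Targets

/-!
# sgt_modules, CTB: the situation of a line, first facts (helper50)
-/

set_option autoImplicit false

namespace Pool.Agent.H50.S

open Set Pool.Agent.H77.BC Pool.Agent.H78.S
open scoped Pointwise

theorem ct_smul {G S : Type} [Group G] [MulAction G S] {H : Subgroup G} {o : S} {h : G}
    (hh : h ∈ H) : h • Orb H o = Orb H o := by
  ext y
  rw [mem_smul_set_iff_inv_smul_mem]
  constructor
  · rintro ⟨k, hk, hy⟩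
    refine ⟨h * k, H.mul_mem hh hk, ?_⟩
    rw [mul_smul, ← hy, smul_inv_smul]
  · rintro ⟨k, hk, rfl⟩
    exact ⟨h⁻¹ * k, H.mul_mem (H.inv_mem hh) hk, by rw [mul_smul]⟩

theorem pf_CTB (hORB : T_ORB) (hCCA : T_CCA) (_hBGA : T_BGA) (hORM : T_ORM) : T_CTB := by
  intro M U G S _ _ _ _ _ _ hact H X T o e hC
  obtain ⟨hconn, horb, hcomp, hmem, hgen, hpos⟩ := hC
  have hH : U.D (H : Set G) := hconn.1
  obtain ⟨b1, b2, b3, b4⟩ := hORB U hact H o hH
  obtain ⟨b5, b6⟩ := b4 hconn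
  obtain ⟨c1, c2, c3, c4⟩ := hCCA U (Fx H o) b2
  rw [← hcomp] at c1 c2 c4
  rw [← horb] at b1 b3 b5 b6
  have hFH : Fx H o ≤ H := inf_le_left
  have hTH : T ≤ H := c1.trans hFH
  have hoX : o ∈ X := by
    rw [horb]
    exact ⟨1, H.one_mem, (one_smul _ _).symm⟩
  have hXs : ∀ h ∈ H, ∀ y ∈ X, h • y ∈ X := by
    intro h hh y hy
    rw [horb] at hy ⊢
    obtain ⟨k, hk, rfl⟩ := hy
    exact ⟨h * k, H.mul_mem hh hk, (mul_smul _ _ _).symm⟩
  have hXo : ∀ y ∈ X, ∃ h ∈ H, y = h • o := by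
    intro y hy
    rw [horb] at hy
    exact hy
  obtain ⟨d1, d2, d3, -⟩ := hORB U hact T e c2.1
  have hsub : Orb T e ⊆ X := by
    rintro _ ⟨t, ht, rfl⟩
    exact hXs t (hTH ht) e hmem
  have hne : (Orb T e).Nonempty := ⟨e, 1, T.one_mem, (one_smul _ _).symm⟩
  have hr : U.R (Orb T e) = U.R X := by
    apply le_antisymm
    · exact (l_RKA U).mono d1 b1 hne hsub
    · obtain ⟨Y, a1, a2, a3, a4, a5⟩ := hgen
      exact a5.trans ((l_RKA U).mono a1 d1 a2 a4)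
  refine ⟨hoX, b1, b5, hH, c2.1, c2, hTH, ?_, hXs, hXo, d1, hsub, hr, ?_, ?_, ?_⟩
  · intro t ht
    exact (c1 ht).2
  · rw [d3, hr]
  · rw [b3, c4]
  · intro h hh
    obtain ⟨-, -, f3, -⟩ := hORM U hact h⁻¹ X (Orb T e)
    have f4 := f3 b1 hgen
    have hX : h⁻¹ • X = X := by
      rw [horb]
      exact ct_smul (H.inv_mem hh)
    rw [hX] at f4
    obtain ⟨y, hy, hy'⟩ := b5.2.2 _ _ hgen f4
    rw [mem_smul_set_iff_inv_smul_mem, inv_inv] at hy'
    exact ⟨y, hy, hy'⟩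

end Pool.Agent.H50.S
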