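import Pool.Agent.H78.S.Targets

/-!
# sgt_modules, IN1: independence of lines, translations (helper50)
-/

set_option autoImplicit false

namespace Pool.Agent.H50.S

open Set Pool.Agent.H77.BC Pool.Agent.H78.S
open scoped Pointwise

variable {M : Type} {U : RU M} {G S : Type} [Group G] [MulAction G S] [Cod M S]
  {H T : Subgroup G} {X : Set S} {o e : S}

/-- the multiplier of an element of `H` on the field of a line -/
def ca {E : Set (S × S)} (L : LB U H X o e E) (h : H) : L.K :=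
  L.f ((h : G) • e) - L.f ((h : G) • o)

/-- the translation part of an element of `H` on the field of a line -/
def cb {E : Set (S × S)} (L : LB U H X o e E) (h : H) : L.K := L.f ((h : G) • o)

theorem cab {E : Set (S × S)} (L : LB U H X o e E) (hoX : o ∈ X) (heX : e ∈ X) (h : H) :
    ca L h ≠ 0 ∧ ∀ y ∈ X, L.f ((h : G) • y) = ca L h * L.f y + cb L h := by
  obtain ⟨a, b, ha, hab⟩ := L.line.act h h.2
  have h1 := hab o hoX
  rw [L.line.f0, mul_zero, zero_add] at h1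
  have h2 := hab e heX
  rw [L.line.f1, mul_one] at h2
  have h3 : ca L h = a := by
    rw [ca, h1, h2]
    ring
  have h4 : cb L h = b := h1
  rw [h3, h4]
  exact ⟨ha, hab⟩

theorem cab_afh {E : Set (S × S)} (L : LB U H X o e E) (hoX : o ∈ X) (heX : e ∈ X)
    (hXs : ∀ h ∈ H, ∀ y ∈ X, h • y ∈ X) : AfH H L.K (ca L) (cb L) := by
  refine ⟨fun g => (cab L hoX heX g).1, fun g h => ?_, fun g h => ?_⟩
  · have h1 := (cab L hoX heX g).2 _ (hXs h h.2 e heX)
    have h2 := (cab L hoX heX g).2 _ (hXs h h.2 o hoX)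
    rw [← mul_smul] at h1 h2
    rw [ca, Subgroup.coe_mul, h1, h2]
    rw [show ca L h = L.f ((h : G) • e) - L.f ((h : G) • o) from rfl]
    ring
  · have h2 := (cab L hoX heX g).2 _ (hXs h h.2 o hoX)
    rw [← mul_smul] at h2
    rw [cb, Subgroup.coe_mul, h2]
    rfl

theorem in1_aux (hoX : o ∈ X) (heX : e ∈ X) (hXs : ∀ h ∈ H, ∀ y ∈ X, h • y ∈ X)
    (hTH : T ≤ H) (hTo : ∀ t ∈ T, t • o = o) (hXo : ∀ y ∈ X, ∃ h ∈ H, y = h • o)
    {E1 E2 : Set (S × S)} (L1 : LB U H X o e E1) (L2 : LB U H X o e E2)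
    (hT1 : ∀ k : L1.K, k ≠ 0 → ∃ t ∈ T, L1.f (t • e) = k)
    (hN : ∀ g : H, (ca L1 g = 1 ∧ cb L1 g = 0) → (ca L2 g = 1 ∧ cb L2 g = 0)) :
    ∀ y ∈ X, ∀ z ∈ X, L1.f y = L1.f z → L2.f y = L2.f z := by
  intro y hy z hz hyz
  obtain ⟨h, hh, rfl⟩ := hXo y hy
  obtain ⟨h', hh', rfl⟩ := hXo z hz
  have A1 := cab_afh L1 hoX heX hXs
  have A2 := cab_afh L2 hoX heX hXs
  let g : H := ⟨h, hh⟩
  let g' : H := ⟨h', hh'⟩
  let k : H := g⁻¹ * g'
  have hk : g' = g * k := (mul_inv_cancel_left g g').symm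
  have h1 : cb L1 g = cb L1 g' := hyz
  rw [hk, A1.bmul] at h1
  have h2 : ca L1 g * cb L1 k = 0 := by
    rw [eq_comm, add_eq_right] at h1
    exact h1
  have h3 : cb L1 k = 0 := (mul_eq_zero.1 h2).resolve_left (A1.ne g)
  obtain ⟨t0, ht0, ht0'⟩ := hT1 (ca L1 k) (A1.ne k)
  let t : H := ⟨t0, hTH ht0⟩
  have hbt : ∀ {E : Set (S × S)} (L : LB U H X o e E), cb L t = 0 := by
    intro E L
    change L.f (t0 • o) = 0
    rw [hTo t0 ht0, L.line.f0]
  have hat : ca L1 t = ca L1 k := by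
    have h4 : ca L1 t = L1.f (t0 • e) - cb L1 t := rfl
    rw [h4, hbt L1, sub_zero, ht0']
  let n : H := t⁻¹ * k
  have hn : k = t * n := (mul_inv_cancel_left t k).symm
  have h5 : ca L1 n = 1 := by
    have h6 := A1.amul t n
    rw [← hn, hat] at h6
    exact (mul_eq_left₀ (A1.ne k)).1 h6.symm
  have h7 : cb L1 n = 0 := by
    have h6 := A1.bmul t n
    rw [← hn, h3, hbt L1, add_zero] at h6
    exact (mul_eq_zero.1 h6.symm).resolve_left (A1.ne t)
  obtain ⟨h8, h9⟩ := hN n ⟨h5, h7⟩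
  have h10 : cb L2 k = 0 := by
    rw [hn, A2.bmul, h9, hbt L2, mul_zero, add_zero]
  change cb L2 g = cb L2 g'
  rw [hk, A2.bmul, h10, mul_zero, zero_add]

theorem pf_IN1 (hCTB : T_CTB) (hLNK : T_LNK) (hAGA : T_AGA) : T_IN1 := by
  intro M U G S _ _ _ _ _ _ hact H X T o e hC t E L hfull E' L' hne v
  obtain ⟨hoX, hXD, hXI, hH, hT, hTc, hTH, hTo, hXs, hXo, hOD, hOX, hOr, hTr, hHr, hmeet⟩ :=
    hCTB U hact H X T o e hC
  have heX : e ∈ X := hC.mem
  have hnk : ∀ {E : Set (S × S)} (L : LB U H X o e E),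
      (∀ k : L.K, k ≠ 0 → ∃ t ∈ T, L.f (t • e) = k) ∧
      ∀ y z, (y, z) ∈ E ↔ y ∈ X ∧ z ∈ X ∧ L.f y = L.f z := by
    intro E L
    obtain ⟨-, h2, -, -, -, -, -, h8, -⟩ := hLNK U hact H X T o e hC E L
    exact ⟨h2, h8⟩
  have hsur : ∀ {E : Set (S × S)} (L : LB U H X o e E) (g : G) (hg : g ∈ H) (u v : L.K),
      (∀ y ∈ X, L.f (g • y) = u * L.f y + v) → ca L ⟨g, hg⟩ = u ∧ cb L ⟨g, hg⟩ = v := by
    intro E L g hg u v h
    have h1 := h o hoX
    rw [L.line.f0, mul_zero, zero_add] at h1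
    have h2 := h e heX
    rw [L.line.f1, mul_one] at h2
    have h3 : cb L ⟨g, hg⟩ = v := h1
    refine ⟨?_, h3⟩
    change L.f (g • e) - L.f (g • o) = u
    rw [h1, h2]
    ring
  rcases hAGA H t (fun j => (L j).K) (fun j => ca (L j)) (fun j => cb (L j)) L'.K (ca L') (cb L')
    (fun j => cab_afh (L j) hoX heX hXs) (cab_afh L' hoX heX hXs) (fun j => (L j).line.inf)
    L'.line.inf
    (fun u v hu => by
      obtain ⟨h, hh, hh'⟩ := hfull u v hu
      exact ⟨⟨h, hh⟩, fun j => hsur (L j) h hh _ _ (hh' j)⟩)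
    (fun u v hu => by
      obtain ⟨h, hh, hh'⟩ := L'.line.full u v hu
      exact ⟨⟨h, hh⟩, hsur L' h hh _ _ hh'⟩) with ⟨j, hj⟩ | h2
  · exfalso
    apply hne j
    ext ⟨y, z⟩
    rw [(hnk L').2, (hnk (L j)).2]
    constructor
    · rintro ⟨q1, q2, q3⟩
      exact ⟨q1, q2, in1_aux hoX heX hXs hTH hTo hXo L' (L j) (hnk L').1
        (fun g => (hj g).2) y q1 z q2 q3⟩
    · rintro ⟨q1, q2, q3⟩
      exact ⟨q1, q2, in1_aux hoX heX hXs hTH hTo hXo (L j) L' (hnk (L j)).1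
        (fun g => (hj g).1) y q1 z q2 q3⟩
  · obtain ⟨g, g1, g2, g3⟩ := h2 v
    refine ⟨g, g.2, fun j y hy => ?_, fun y hy => ?_⟩
    · rw [(cab (L j) hoX heX g).2 y hy, (g1 j).1, (g1 j).2, one_mul, add_zero]
    · rw [(cab L' hoX heX g).2 y hy, g2, g3, one_mul]

end Pool.Agent.H50.S
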