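import Pool.Agent.H78.S.Targets

/-!
# sgt_modules, IN2: independence of lines, the group `T` (helper50)
-/

set_option autoImplicit false

namespace Pool.Agent.H50.S

open Set Pool.Agent.H77.BC Pool.Agent.H78.S
open scoped Pointwise

theorem in2_count {M : Type} (U : RU M) {S : Type} [Cod M S] [Ful U S] {Z : Set (S × S)}
    {n m : ℕ} (hZ : U.D Z) (hne : Z.Nonempty)
    (h1 : ∀ a, (∃ b, (a, b) ∈ Z) → U.R {b | (a, b) ∈ Z} = n)
    (h2 : ∀ b, (∃ a, (a, b) ∈ Z) → U.R {a | (a, b) ∈ Z} = m) :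
    U.R {a | ∃ b, (a, b) ∈ Z} + n = U.R {b | ∃ a, (a, b) ∈ Z} + m := by
  have e1 := (l_RKB U).sec_eq hZ hne h1
  have hZ' : U.D {p : S × S | (p.2, p.1) ∈ Z} := D_swap hZ
  have e2 := (l_RKB U).sec_eq (Z := {p : S × S | (p.2, p.1) ∈ Z}) hZ'
    (by
      obtain ⟨⟨a, b⟩, hab⟩ := hne
      exact ⟨(b, a), hab⟩) h2
  have e3 : (fun p : S × S => (p.2, p.1)) '' Z = {p : S × S | (p.2, p.1) ∈ Z} := by
    ext ⟨a, b⟩
    constructor
    · rintro ⟨⟨c, d⟩, h, h'⟩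
      obtain ⟨rfl, rfl⟩ := Prod.mk.inj h'
      exact h
    · intro h
      exact ⟨(b, a), h, rfl⟩
  have e4 := (l_RKB U).inj (X := Z) (f := fun p : S × S => (p.2, p.1)) hZ DFn_swap hne
    (fun p _ q _ h => Prod.ext (congrArg Prod.snd h) (congrArg Prod.fst h))
  rw [e3] at e4
  rw [← e1, ← e4, e2]
  rfl

theorem pf_IN2 (hCTB : T_CTB) (hLNK : T_LNK) (hBGA : T_BGA) (_hIDX : T_IDX) (hORB : T_ORB)
    (hORM : T_ORM) : T_IN2 := by
  intro M U G S _ _ _ _ _ _ hact H X T o e hC t E L _hTs E' L' hHs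
  obtain ⟨hoX, hXD, hXI, hH, hT, hTc, hTH, hTo, hXs, hXo, hOD, hOX, hOr, hTr, hHr, hmeet⟩ :=
    hCTB U hact H X T o e hC
  have heX : e ∈ X := hC.mem
  obtain ⟨k1, k2, k3, k4, k5, k6, k7, k8, k9⟩ := hLNK U hact H X T o e hC E' L'
  have m1 : ∀ j, ∀ t ∈ T, (L j).f (t • e) ≠ 0 ∧
      ∀ y ∈ X, (L j).f (t • y) = (L j).f (t • e) * (L j).f y :=
    fun j => (hLNK U hact H X T o e hC (E j) (L j)).1
  have m3 : ∀ j, ∀ t, t ∈ kap T (E j) ↔ t ∈ T ∧ (L j).f (t • e) = 1 :=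
    fun j => (hLNK U hact H X T o e hC (E j) (L j)).2.2.1
  have m5 : ∀ j, U.D (E j) := fun j => (hLNK U hact H X T o e hC (E j) (L j)).2.2.2.2.1
  have m6 : ∀ j, U.D (kap T (E j) : Set G) :=
    fun j => (hLNK U hact H X T o e hC (E j) (L j)).2.2.2.2.2.1
  have m8 : ∀ j, ∀ y z, (y, z) ∈ E j ↔ y ∈ X ∧ z ∈ X ∧ (L j).f y = (L j).f z :=
    fun j => (hLNK U hact H X T o e hC (E j) (L j)).2.2.2.2.2.2.2.1
  have f1 : ∀ j, (L j).f e = 1 := fun j => (L j).line.f1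
  have f1' : L'.f e = 1 := L'.line.f1
  -- the subgroup `A`
  let A : Subgroup G := T ⊓ ⨅ j, kap T (E j)
  have hA : ∀ a, a ∈ A ↔ a ∈ T ∧ ∀ j, (L j).f (a • e) = 1 := by
    intro a
    change a ∈ T ⊓ ⨅ j, kap T (E j) ↔ _
    rw [Subgroup.mem_inf, Subgroup.mem_iInf]
    constructor
    · rintro ⟨h1, h2⟩
      exact ⟨h1, fun j => ((m3 j a).1 (h2 j)).2⟩
    · rintro ⟨h1, h2⟩
      exact ⟨h1, fun j => (m3 j a).2 ⟨h1, h2 j⟩⟩
  have hAT : A ≤ T := inf_le_left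
  have hAD : U.D (A : Set G) := by
    have h1 : U.D {a : G | a ∈ (T : Set G) ∧ ∀ j, a ∈ (kap T (E j) : Set G)} :=
      D_and hT (D_forall_fin fun j => m6 j)
    have h2 : (A : Set G) = {a : G | a ∈ (T : Set G) ∧ ∀ j, a ∈ (kap T (E j) : Set G)} := by
      ext a
      change a ∈ T ⊓ ⨅ j, kap T (E j) ↔ _
      rw [Subgroup.mem_inf, Subgroup.mem_iInf]
      rfl
    rw [h2]
    exact h1
  -- maps
  have hge : DFn U (fun g : G => g • e) := DFn_comp hact (DFn_pair DFn_id (DFn_const e))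
  obtain ⟨a1, -, a3, -⟩ := hORB U hact A e hAD
  have hAne : (Orb A e).Nonempty := ⟨e, 1, A.one_mem, (one_smul _ _).symm⟩
  have hTne : (Orb T e).Nonempty := ⟨e, 1, T.one_mem, (one_smul _ _).symm⟩
  have hXne : X.Nonempty := ⟨o, hoX⟩
  have hrk : ∀ (g : G) (Z : Set S), U.D Z → Z.Nonempty → U.R (g • Z) = U.R Z :=
    fun g Z h1 h2 => (hORM U hact g Z Z).2.1 h1 h2
  have hDs : ∀ (g : G) (Z : Set S), U.D Z → U.D (g • Z) :=
    fun g Z h1 => (hORM U hact g Z Z).1 h1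
  -- the relation `Et`
  let Et : Set (S × S) := {p | p.1 ∈ X ∧ p.2 ∈ X ∧ ∀ j, p ∈ E j}
  have hEt : ∀ y z, (y, z) ∈ Et ↔ y ∈ X ∧ z ∈ X ∧ ∀ j, (L j).f y = (L j).f z := by
    intro y z
    constructor
    · rintro ⟨h1, h2, h3⟩
      exact ⟨h1, h2, fun j => ((m8 j y z).1 (h3 j)).2.2⟩
    · rintro ⟨h1, h2, h3⟩
      exact ⟨h1, h2, fun j => (m8 j y z).2 ⟨h1, h2, h3 j⟩⟩
  have hEtD : U.D Et :=
    D_and (D_subst (p := fun y => y ∈ X) hXD DFn_fst) (D_and (D_subst (p := fun y => y ∈ X) hXD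
      DFn_snd) (D_forall_fin fun j => m5 j))
  have hEsym : ∀ y z, (y, z) ∈ Et → (z, y) ∈ Et := by
    intro y z h
    obtain ⟨h1, h2, h3⟩ := (hEt y z).1 h
    exact (hEt z y).2 ⟨h2, h1, fun j => (h3 j).symm⟩
  have hErefl : ∀ y ∈ X, (y, y) ∈ Et := fun y hy => (hEt y y).2 ⟨hy, hy, fun j => rfl⟩
  have hEH : ∀ h ∈ H, ∀ y z, (y, z) ∈ Et → (h • y, h • z) ∈ Et := by
    intro h hh y z hyz
    obtain ⟨h1, h2, h3⟩ := (hEt y z).1 hyz
    refine (hEt _ _).2 ⟨hXs h hh y h1, hXs h hh z h2, fun j => ?_⟩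
    obtain ⟨a, b, -, hab⟩ := (L j).line.act h hh
    rw [hab y h1, hab z h2, h3 j]
  -- the classes
  have hsecD : ∀ y, U.D {z | (y, z) ∈ Et} := by
    intro y
    exact D_subst (p := fun p => p ∈ Et) hEtD (DFn_pair (DFn_const y) DFn_id)
  have hcls : ∀ h ∈ H, ∀ y, {z | (h • y, z) ∈ Et} = h • {z | (y, z) ∈ Et} := by
    intro h hh y
    ext z
    rw [mem_smul_set_iff_inv_smul_mem]
    constructor
    · intro hz
      have h1 := hEH h⁻¹ (H.inv_mem hh) _ _ hz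
      rw [inv_smul_smul] at h1
      exact h1
    · intro hz
      have h1 := hEH h hh _ _ hz
      rw [smul_inv_smul] at h1
      exact h1
  let φ : ℕ := U.R {z | (o, z) ∈ Et}
  have hφ : ∀ y ∈ X, U.R {z | (y, z) ∈ Et} = φ := by
    intro y hy
    obtain ⟨h, hh, rfl⟩ := hXo y hy
    rw [hcls h hh o, hrk h _ (hsecD o) ⟨o, hErefl o hoX⟩]
  have hφ' : ∀ z ∈ X, U.R {y | (y, z) ∈ Et} = φ := by
    intro z hz
    have e1 : {y | (y, z) ∈ Et} = {y | (z, y) ∈ Et} := by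
      ext y
      exact ⟨fun h => hEsym _ _ h, fun h => hEsym _ _ h⟩
    rw [e1]
    exact hφ z hz
  -- step 1
  have step1 : U.R (Orb A e) = φ := by
    let Z : Set (S × S) := {p | p ∈ Et ∧ p.2 ∈ Orb T e}
    have hZ : U.D Z := D_and hEtD (D_subst (p := fun y => y ∈ Orb T e) hOD DFn_snd)
    have hZne : Z.Nonempty := ⟨(e, e), hErefl e heX, 1, T.one_mem, (one_smul _ _).symm⟩
    have hc := in2_count U (Z := Z) (n := U.R (Orb A e)) (m := φ) hZ hZne
      (by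
        rintro y ⟨z, hz, ⟨s, hs, hs'⟩⟩
        obtain ⟨q1, q2, q3⟩ := (hEt y z).1 hz
        have e1 : {b | (y, b) ∈ Z} = s • Orb A e := by
          ext w
          rw [mem_smul_set_iff_inv_smul_mem]
          constructor
          · rintro ⟨hw, ⟨r, hr, hr'⟩⟩
            obtain ⟨q4, q5, q6⟩ := (hEt y w).1 hw
            change w = r • e at hr'
            change z = s • e at hs'
            refine ⟨s⁻¹ * r, (hA _).2 ⟨T.mul_mem (T.inv_mem hs) hr, fun j => ?_⟩, ?_⟩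
            · have h7 := (m1 j s hs).2 ((s⁻¹ * r) • e)
                (hXs _ (hTH (T.mul_mem (T.inv_mem hs) hr)) e heX)
              rw [← mul_smul, mul_inv_cancel_left, ← hr', ← hs', ← q6 j, ← q3 j] at h7
              have h8 : (L j).f y ≠ 0 := by
                rw [q3 j, hs']
                exact (m1 j s hs).1
              exact (mul_eq_left₀ h8).1 h7.symm
            · rw [mul_smul, ← hr']
          · rintro ⟨a, ha, ha'⟩
            obtain ⟨q4, q5⟩ := (hA a).1 ha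
            change z = s • e at hs'
            have h7 : w = (s * a) • e := by
              rw [mul_smul, ← ha', smul_inv_smul]
            refine ⟨(hEt y w).2 ⟨q1, ?_, fun j => ?_⟩, ⟨s * a, T.mul_mem hs q4, h7⟩⟩
            · rw [h7]
              exact hXs _ (hTH (T.mul_mem hs q4)) e heX
            · rw [h7, mul_smul, (m1 j s hs).2 _ (hXs _ (hTH q4) e heX), q5 j, mul_one, ← hs']
              exact q3 j
        rw [e1]
        exact hrk s _ a1 hAne)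
      (by
        rintro z ⟨y, hy, hz⟩
        have e1 : {a | (a, z) ∈ Z} = {a | (a, z) ∈ Et} := by
          ext a
          exact ⟨fun h => h.1, fun h => ⟨h, hz⟩⟩
        rw [e1]
        exact hφ' z ((hEt y z).1 hy).2.1)
    have e1 : U.R {a | ∃ b, (a, b) ∈ Z} = U.R X := by
      apply le_antisymm
      · refine (l_RKA U).mono (D_ex hZ) hXD ⟨e, e, hZne.some_mem.1.1 |> fun _ =>
          (⟨hErefl e heX, 1, T.one_mem, (one_smul _ _).symm⟩ : (e, e) ∈ Z)⟩ ?_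
        rintro a ⟨b, hb, -⟩
        exact hb.1
      · rw [← hOr]
        refine (l_RKA U).mono hOD (D_ex hZ) hTne ?_
        intro a ha
        exact ⟨a, hErefl a (hOX ha), ha⟩
    have e2 : {b | ∃ a, (a, b) ∈ Z} = Orb T e := by
      ext b
      constructor
      · rintro ⟨a, -, hb⟩
        exact hb
      · intro hb
        exact ⟨b, hErefl b (hOX hb), hb⟩
    rw [e1, e2, hOr] at hc
    omega
  -- the set `Y`
  let Y : Set S := {y | y ∈ X ∧ ∃ a, a ∈ A ∧ (y, a • e) ∈ E'}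
  have hYD : U.D Y := by
    refine D_and hXD (D_exists (p := fun (y : S) (a : G) => a ∈ A ∧ (y, a • e) ∈ E') ?_)
    refine D_and (D_subst (p := fun a : G => a ∈ A) hAD DFn_snd) ?_
    exact D_subst (p := fun p : S × S => p ∈ E') k5 (DFn_pair DFn_fst (DFn_comp hge DFn_snd))
  have hY : ∀ y, y ∈ Y ↔ y ∈ X ∧ ∃ a ∈ A, L'.f y = L'.f (a • e) := by
    intro y
    constructor
    · rintro ⟨h1, a, ha, h2⟩
      exact ⟨h1, a, ha, ((k8 _ _).1 h2).2.2⟩
    · rintro ⟨h1, a, ha, h2⟩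
      exact ⟨h1, a, ha, (k8 _ _).2 ⟨h1, hXs a (hTH (hAT ha)) e heX, h2⟩⟩
  have heY : e ∈ Y := (hY e).2 ⟨heX, 1, A.one_mem, by rw [one_smul]⟩
  have hYX : Y ⊆ X := fun y hy => hy.1
  -- step 2 and step 3
  have step3 : U.R Y = U.R X := by
    let Z : Set (S × S) := {p | p ∈ Et ∧ p.2 ∈ Y}
    have hZ : U.D Z := D_and hEtD (D_subst (p := fun y => y ∈ Y) hYD DFn_snd)
    have hZne : Z.Nonempty := ⟨(e, e), hErefl e heX, heY⟩
    have hin : ∀ y ∈ X, ∃ h ∈ H, h • Orb A e ⊆ {b | (y, b) ∈ Z} := by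
      intro y hy
      obtain ⟨h, hh, h1, h2⟩ := hHs (fun j => (L j).f y - 1) 0
      refine ⟨h, hh, ?_⟩
      intro w hw
      rw [mem_smul_set_iff_inv_smul_mem] at hw
      obtain ⟨a, ha, ha'⟩ := hw
      obtain ⟨q4, q5⟩ := (hA a).1 ha
      have h7 : w = h • a • e := by
        rw [← ha', smul_inv_smul]
      have h8 : a • e ∈ X := hXs a (hTH q4) e heX
      have h9 : w ∈ X := by
        rw [h7]
        exact hXs h hh _ h8
      refine ⟨(hEt y w).2 ⟨hy, h9, fun j => ?_⟩, (hY w).2 ⟨h9, a, ha, ?_⟩⟩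
      · rw [h7, h1 j _ h8, q5 j]
        ring
      · rw [h7, h2 _ h8, add_zero]
    have hsec : ∀ y, U.D {b | (y, b) ∈ Z} := by
      intro y
      exact D_subst (p := fun p => p ∈ Z) hZ (DFn_pair (DFn_const y) DFn_id)
    have hc := in2_count U (Z := Z) (n := φ) (m := φ) hZ hZne
      (by
        rintro y ⟨z, hz, hz'⟩
        have hy : y ∈ X := ((hEt y z).1 hz).1
        apply le_antisymm
        · rw [← hφ y hy]
          exact (l_RKA U).mono (hsec y) (hsecD y) ⟨z, hz, hz'⟩ fun b hb => hb.1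
        · obtain ⟨h, hh, hsub⟩ := hin y hy
          rw [← step1, ← hrk h _ a1 hAne]
          exact (l_RKA U).mono (hDs h _ a1) (hsec y) (hAne.smul_set) hsub)
      (by
        rintro z ⟨y, hy, hz⟩
        have e1 : {a | (a, z) ∈ Z} = {a | (a, z) ∈ Et} := by
          ext a
          exact ⟨fun h => h.1, fun h => ⟨h, hz⟩⟩
        rw [e1]
        exact hφ' z ((hEt y z).1 hy).2.1)
    have e1 : {a | ∃ b, (a, b) ∈ Z} = X := by
      ext y
      constructor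
      · rintro ⟨b, hb, -⟩
        exact hb.1
      · intro hy
        obtain ⟨h, hh, hsub⟩ := hin y hy
        obtain ⟨w, hw⟩ := hAne.smul_set (a := h)
        exact ⟨w, hsub hw⟩
    have e2 : {b | ∃ a, (a, b) ∈ Z} = Y := by
      ext b
      constructor
      · rintro ⟨a, -, hb⟩
        exact hb
      · intro hb
        exact ⟨b, hErefl b (hYX hb), hb⟩
    rw [e1, e2] at hc
    omega
  -- the group `AB`
  let AB : Subgroup G :=
    { carrier := {t | t ∈ T ∧ ∃ a, a ∈ A ∧ (t • e, a • e) ∈ E'}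
      one_mem' := ⟨T.one_mem, 1, A.one_mem, (k8 _ _).2 ⟨by rw [one_smul]; exact heX,
        by rw [one_smul]; exact heX, rfl⟩⟩
      mul_mem' := by
        rintro s t ⟨hs, a, ha, ha'⟩ ⟨ht, b, hb, hb'⟩
        have h1 := ((k8 _ _).1 ha').2.2
        have h2 := ((k8 _ _).1 hb').2.2
        refine ⟨T.mul_mem hs ht, a * b, A.mul_mem ha hb, (k8 _ _).2
          ⟨hXs _ (hTH (T.mul_mem hs ht)) e heX, hXs _ (hTH (hAT (A.mul_mem ha hb))) e heX, ?_⟩⟩
        rw [mul_smul, mul_smul, (k1 s hs).2 _ (hXs t (hTH ht) e heX),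
          (k1 a (hAT ha)).2 _ (hXs b (hTH (hAT hb)) e heX), h1, h2]
      inv_mem' := by
        rintro s ⟨hs, a, ha, ha'⟩
        have h1 := ((k8 _ _).1 ha').2.2
        refine ⟨T.inv_mem hs, a⁻¹, A.inv_mem ha, (k8 _ _).2
          ⟨hXs _ (hTH (T.inv_mem hs)) e heX, hXs _ (hTH (hAT (A.inv_mem ha))) e heX, ?_⟩⟩
        have h2 := (k1 s hs).2 _ (hXs _ (hTH (T.inv_mem hs)) e heX)
        have h3 := (k1 a (hAT ha)).2 _ (hXs _ (hTH (hAT (A.inv_mem ha))) e heX)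
        rw [smul_inv_smul, f1'] at h2 h3
        rw [h1] at h2
        exact mul_left_cancel₀ (k1 a (hAT ha)).1 (h2.symm.trans h3) }
  have hAB : ∀ s, s ∈ AB ↔ s ∈ T ∧ ∃ a, a ∈ A ∧ (s • e, a • e) ∈ E' := fun s => Iff.rfl
  have hABD : U.D (AB : Set G) := by
    refine D_and hT (D_exists (p := fun (s : G) (a : G) => a ∈ A ∧ (s • e, a • e) ∈ E') ?_)
    refine D_and (D_subst (p := fun a : G => a ∈ A) hAD DFn_snd) ?_
    exact D_subst (p := fun p : S × S => p ∈ E') k5 (DFn_pair (DFn_comp hge DFn_fst)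
      (DFn_comp hge DFn_snd))
  have hABT : AB ≤ T := fun s hs => hs.1
  obtain ⟨b1, -, b3, -⟩ := hORB U hact AB e hABD
  have step4 : U.R X ≤ U.R (Orb AB e) := by
    have h1 : Orb AB e = Y ∩ Orb T e := by
      ext y
      constructor
      · rintro ⟨s, ⟨hs, a, ha, ha'⟩, rfl⟩
        exact ⟨⟨hXs s (hTH hs) e heX, a, ha, ha'⟩, s, hs, rfl⟩
      · rintro ⟨⟨hy, a, ha, ha'⟩, s, hs, rfl⟩
        exact ⟨s, ⟨hs, a, ha, ha'⟩, rfl⟩
    have h2 : Big U X Y := ⟨Y, hYD, ⟨e, heY⟩, hYX, subset_rfl, step3.ge⟩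
    have h3 : Big U X (Orb T e) := hC.gen
    obtain ⟨W, w1, w2, w3, w4, w5⟩ := (hBGA U X hXI).1 _ _ h2 h3
    rw [← h1] at w4
    exact w5.trans ((l_RKA U).mono w1 b1 w2 w4)
  have hfx : Fx AB e = Fx T e := by
    ext s
    constructor
    · intro h
      exact ⟨hABT h.1, h.2⟩
    · intro h
      have h2 : s • e = e := h.2
      refine ⟨⟨h.1, 1, A.one_mem, ?_⟩, h.2⟩
      rw [h2, one_smul]
      exact (k8 _ _).2 ⟨heX, heX, rfl⟩
  have hfin : AB = T := by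
    refine hTc.2 AB hABT hABD ?_
    rw [b3, hfx, hTr]
    omega
  intro u' hu'
  obtain ⟨s, hs, hs'⟩ := k2 u' hu'
  rw [← hfin] at hs
  obtain ⟨-, a, ha, ha'⟩ := hs
  exact ⟨a, hAT ha, ((hA a).1 ha).2, (((k8 _ _).1 ha').2.2).symm.trans hs'⟩

end Pool.Agent.H50.S
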