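import Pool.Agent.H50.S.IN1

/-!
# sgt_modules, INC: independence of lines (helper50)
-/

set_option autoImplicit false

namespace Pool.Agent.H50.S

open Set Pool.Agent.H77.BC Pool.Agent.H78.S
open scoped Pointwise

theorem inc_ne (K : Type) [Field K] [Infinite K] : ∃ c : K, c ≠ 0 ∧ c ≠ 1 := by
  classical
  obtain ⟨c, hc⟩ := Infinite.exists_notMem_finset ({0, 1} : Finset K)
  refine ⟨c, ?_, ?_⟩
  · rintro rfl
    exact hc (by simp)
  · rintro rfl
    exact hc (by simp)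

variable {M : Type} {U : RU M} {G S : Type} [Group G] [MulAction G S] [Cod M S]
  {H T : Subgroup G} {X : Set S} {o e : S}

theorem inc_sur {E : Set (S × S)} (L : LB U H X o e E) (hoX : o ∈ X) (heX : e ∈ X) (g : H)
    (u v : L.K) (h : ∀ y ∈ X, L.f ((g : G) • y) = u * L.f y + v) :
    ca L g = u ∧ cb L g = v := by
  have h1 := h o hoX
  rw [L.line.f0, mul_zero, zero_add] at h1
  have h2 := h e heX
  rw [L.line.f1, mul_one] at h2
  have h3 : cb L g = v := h1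
  refine ⟨?_, h3⟩
  change L.f ((g : G) • e) - L.f ((g : G) • o) = u
  rw [h1, h2]
  ring

theorem inc_comm {Γ K : Type} [Group Γ] [Field K] {a b : Γ → K} (h : AfH Γ K a b) (g1 g2 : Γ) :
    a (g1 * g2 * (g2 * g1)⁻¹) = 1 ∧
      b (g1 * g2 * (g2 * g1)⁻¹) = (a g1 * b g2 + b g1) - (a g2 * b g1 + b g2) := by
  have e0 : (g1 * g2 * (g2 * g1)⁻¹) * (g2 * g1) = g1 * g2 := inv_mul_cancel_right _ _
  have h1 := h.amul (g1 * g2 * (g2 * g1)⁻¹) (g2 * g1)
  rw [e0, h.amul g1 g2, h.amul g2 g1, mul_comm (a g2) (a g1)] at h1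
  have h2 : a (g1 * g2 * (g2 * g1)⁻¹) = 1 :=
    (mul_eq_right₀ (mul_ne_zero (h.ne g1) (h.ne g2))).1 h1.symm
  refine ⟨h2, ?_⟩
  have h3 := h.bmul (g1 * g2 * (g2 * g1)⁻¹) (g2 * g1)
  rw [e0, h2, one_mul, h.bmul g1 g2, h.bmul g2 g1] at h3
  rw [h3]
  ring

theorem inc_main (hIN1 : T_IN1) (hIN2 : T_IN2) (hCTB : T_CTB) (hLNK : T_LNK) :
    ∀ {M : Type} (U : RU M) {G S : Type} [Group G] [MulAction G S] [Cod M G]
  [Cod M S] [DG U G] [Ful U S], DFn U (fun p : G × S => p.1 • p.2) →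
  ∀ (H : Subgroup G) (X : Set S) (T : Subgroup G) (o e : S), Ctx U H X T o e →
  ∀ (t : ℕ) (E : Fin t → Set (S × S)), Function.Injective E → ∀ L : ∀ j, LB U H X o e (E j),
    (∀ v : ∀ j, (L j).K, ∃ h ∈ H, ∀ j, ∀ y ∈ X, (L j).f (h • y) = (L j).f y + v j) ∧
    ∀ u : ∀ j, (L j).K, (∀ j, u j ≠ 0) → ∃ s ∈ T, ∀ j, (L j).f (s • e) = u j := by
  intro M U G S _ _ _ _ _ _ hact H X T o e hC
  obtain ⟨hoX, hXD, hXI, hH, hT, hTc, hTH, hTo, hXs, hXo, hOD, hOX, hOr, hTr, hHr, hmeet⟩ :=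
    hCTB U hact H X T o e hC
  have heX : e ∈ X := hC.mem
  have hnk : ∀ {E : Set (S × S)} (L : LB U H X o e E), ∀ t ∈ T, L.f (t • e) ≠ 0 ∧
      ∀ y ∈ X, L.f (t • y) = L.f (t • e) * L.f y := by
    intro E L
    exact (hLNK U hact H X T o e hC E L).1
  intro t
  induction t with
  | zero =>
    intro E hE L
    exact ⟨fun v => ⟨1, H.one_mem, fun j => j.elim0⟩, fun u _ => ⟨1, T.one_mem, fun j => j.elim0⟩⟩
  | succ t ih =>
    intro E hE L
    obtain ⟨i1, i2⟩ := ih (fun j => E j.castSucc) (fun a b h => Fin.castSucc_injective t (hE h))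
      (fun j => L j.castSucc)
    have hfull : ∀ u v : ∀ j : Fin t, (L j.castSucc).K, (∀ j, u j ≠ 0) → ∃ h ∈ H, ∀ j, ∀ y ∈ X,
        (L j.castSucc).f (h • y) = u j * (L j.castSucc).f y + v j := by
      intro u v hu
      obtain ⟨s, hs, hs'⟩ := i2 u hu
      obtain ⟨h, hh, hh'⟩ := i1 v
      refine ⟨h * s, H.mul_mem hh (hTH hs), fun j y hy => ?_⟩
      rw [mul_smul, hh' j _ (hXs s (hTH hs) y hy), (hnk _ s hs).2 y hy, hs' j]
    have hne : ∀ j : Fin t, E (Fin.last t) ≠ E j.castSucc := by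
      intro j h
      exact (Fin.castSucc_lt_last j).ne (hE h).symm
    have h1 := hIN1 U hact H X T o e hC t (fun j => E j.castSucc) (fun j => L j.castSucc) hfull
      (E (Fin.last t)) (L (Fin.last t)) hne
    have key : ∀ (v : ∀ j : Fin t, (L j.castSucc).K) (v' : (L (Fin.last t)).K), ∃ h ∈ H,
        (∀ j : Fin t, ∀ y ∈ X, (L j.castSucc).f (h • y) = (L j.castSucc).f y + v j) ∧
          ∀ y ∈ X, (L (Fin.last t)).f (h • y) = (L (Fin.last t)).f y + v' := by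
      intro v v'
      have hc : ∀ j : Fin t, ∃ c : (L j.castSucc).K, c ≠ 0 ∧ c ≠ 1 := by
        intro j
        have := (L j.castSucc).line.inf
        exact inc_ne _
      choose c hc0 hc1 using hc
      obtain ⟨g1, hg1, hg1'⟩ := hfull c (fun _ => 0) hc0
      obtain ⟨g2, hg2, hg2'⟩ := hfull (fun _ => 1) (fun j => v j / (c j - 1))
        (fun _ => one_ne_zero)
      let k1 : H := ⟨g1, hg1⟩
      let k2 : H := ⟨g2, hg2⟩
      let k : H := k1 * k2 * (k2 * k1)⁻¹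
      obtain ⟨q1, q2⟩ := inc_comm (cab_afh (L (Fin.last t)) hoX heX hXs) k1 k2
      obtain ⟨g, hg, hg', hg''⟩ := h1 (v' - cb (L (Fin.last t)) k)
      refine ⟨g * k, H.mul_mem hg k.2, fun j y hy => ?_, fun y hy => ?_⟩
      · rw [mul_smul, hg' j _ (hXs k k.2 y hy), (cab (L j.castSucc) hoX heX k).2 y hy]
        obtain ⟨r1, r2⟩ := inc_comm (cab_afh (L j.castSucc) hoX heX hXs) k1 k2
        obtain ⟨s1, s2⟩ := inc_sur (L j.castSucc) hoX heX k1 _ _ (hg1' j)
        obtain ⟨s3, s4⟩ := inc_sur (L j.castSucc) hoX heX k2 _ _ (hg2' j)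
        have r3 : ca (L j.castSucc) k = 1 := r1
        have r4 : cb (L j.castSucc) k = v j := by
          refine r2.trans ?_
          rw [s1, s2, s3, s4]
          have : c j - 1 ≠ 0 := sub_ne_zero.2 (hc1 j)
          field_simp
          ring
        rw [r3, r4, one_mul]
      · rw [mul_smul, hg'' _ (hXs k k.2 y hy), (cab (L (Fin.last t)) hoX heX k).2 y hy]
        have r3 : ca (L (Fin.last t)) k = 1 := q1
        rw [r3]
        ring
    refine ⟨?_, ?_⟩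
    · intro v
      obtain ⟨h, hh, h2, h3⟩ := key (fun j => v j.castSucc) (v (Fin.last t))
      refine ⟨h, hh, fun j => ?_⟩
      refine Fin.lastCases ?_ (fun i => ?_) j
      · exact h3
      · exact h2 i
    · intro u hu
      obtain ⟨s0, hs0, hs0'⟩ := i2 (fun j => u j.castSucc) (fun j => hu _)
      have h4 := hIN2 U hact H X T o e hC t (fun j => E j.castSucc) (fun j => L j.castSucc) i2
        (E (Fin.last t)) (L (Fin.last t)) key
        (u (Fin.last t) / (L (Fin.last t)).f (s0 • e))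
        (div_ne_zero (hu _) (hnk (L (Fin.last t)) s0 hs0).1)
      obtain ⟨s1, hs1, hs1', hs1''⟩ := h4
      refine ⟨s0 * s1, T.mul_mem hs0 hs1, fun j => ?_⟩
      refine Fin.lastCases ?_ (fun i => ?_) j
      · rw [mul_smul, (hnk (L (Fin.last t)) s0 hs0).2 _ (hXs s1 (hTH hs1) e heX), hs1'']
        exact mul_div_cancel₀ _ (hnk (L (Fin.last t)) s0 hs0).1
      · rw [mul_smul, (hnk (L i.castSucc) s0 hs0).2 _ (hXs s1 (hTH hs1) e heX), hs1' i, mul_one,
          hs0' i]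

theorem pf_INC (hIN1 : T_IN1) (hIN2 : T_IN2) (hCTB : T_CTB) (hLNK : T_LNK) : T_INC := by
  refine ⟨?_, ?_⟩
  · intro M U G S _ _ _ _ _ _ hact H X T o e hC t E hE L u v hu
    obtain ⟨hoX, hXD, hXI, hH, hT, hTc, hTH, hTo, hXs, hXo, hOD, hOX, hOr, hTr, hHr, hmeet⟩ :=
      hCTB U hact H X T o e hC
    obtain ⟨h1, h2⟩ := inc_main hIN1 hIN2 hCTB hLNK U hact H X T o e hC t E hE L
    obtain ⟨s, hs, hs'⟩ := h2 u hu
    obtain ⟨h, hh, hh'⟩ := h1 v
    refine ⟨h * s, H.mul_mem hh (hTH hs), fun j y hy => ?_⟩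
    rw [mul_smul, hh' j _ (hXs s (hTH hs) y hy),
      ((hLNK U hact H X T o e hC _ (L j)).1 s hs).2 y hy, hs' j]
  · intro M U G S _ _ _ _ _ _ hact H X T o e hC t E hE L
    obtain ⟨hoX, hXD, hXI, hH, hT, hTc, hTH, hTo, hXs, hXo, hOD, hOX, hOr, hTr, hHr, hmeet⟩ :=
      hCTB U hact H X T o e hC
    obtain ⟨h1, h2⟩ := inc_main hIN1 hIN2 hCTB hLNK U hact H X T o e hC t E hE L
    refine ⟨fun u => ?_, h2⟩
    obtain ⟨h, hh, hh'⟩ := h1 u
    refine ⟨h • o, hXs h hh o hoX, fun j => ?_⟩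
    rw [hh' j o hoX, (L j).line.f0, zero_add]

end Pool.Agent.H50.S
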