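import Pool.Agent.H78.S.Targets

/-!
# sgt_modules, LNK: the kernel of a line (helper50)
-/

set_option autoImplicit false

namespace Pool.Agent.H50.S

open Set Pool.Agent.H77.BC Pool.Agent.H78.S
open scoped Pointwise

theorem ln_units (K : Type) [Field K] [Infinite K] : Infinite Kˣ := by
  by_contra h
  rw [not_infinite_iff_finite] at h
  have h1 : (univ : Set K) ⊆ insert 0 (range (fun u : Kˣ => (u : K))) := by
    intro x _
    rcases eq_or_ne x 0 with rfl | hx
    · exact mem_insert _ _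
    · exact mem_insert_of_mem _ ⟨Units.mk0 x hx, rfl⟩
  exact (infinite_univ (α := K)) (((finite_range _).insert 0).subset h1)

theorem pf_LNK (hCTB : T_CTB) (hSTD : T_STD) : T_LNK := by
  intro M U G S _ _ _ _ _ _ hact H X T o e hC E L
  obtain ⟨hoX, hXD, hXI, hH, hT, hTc, hTH, hTo, hXs, hXo, hOD, hOX, hOr, hTr, hHr, hmeet⟩ :=
    hCTB U hact H X T o e hC
  have heX : e ∈ X := hC.mem
  have hL := L.line
  -- the form of the elements of `H`
  have p1 : ∀ t ∈ T, L.f (t • e) ≠ 0 ∧ ∀ y ∈ X, L.f (t • y) = L.f (t • e) * L.f y := by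
    intro t ht
    obtain ⟨a, b, ha, hab⟩ := hL.act t (hTH ht)
    have h1 := hab o hoX
    rw [hTo t ht, hL.f0, mul_zero, zero_add] at h1
    have h2 := hab e heX
    rw [hL.f1, mul_one, ← h1, add_zero] at h2
    refine ⟨by rw [h2]; exact ha, fun y hy => ?_⟩
    rw [hab y hy, ← h1, add_zero, h2]
  have p8 : ∀ y z, (y, z) ∈ E ↔ y ∈ X ∧ z ∈ X ∧ L.f y = L.f z := by
    intro y z
    have h1 := L.eq
    constructor
    · intro h
      rw [h1] at h
      exact h
    · intro h
      rw [h1]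
      exact h
  have p2 : ∀ k : L.K, k ≠ 0 → ∃ t ∈ T, L.f (t • e) = k := by
    intro k hk
    obtain ⟨h, hh, hh'⟩ := hL.full k 0 hk
    obtain ⟨y, ⟨t, ht, rfl⟩, ⟨t', ht', hy'⟩⟩ := hmeet h hh
    have h1 := hh' (t • e) (hXs t (hTH ht) e heX)
    rw [hy', add_zero] at h1
    refine ⟨t' * t⁻¹, T.mul_mem ht' (T.inv_mem ht), ?_⟩
    obtain ⟨g1, g2⟩ := p1 t' ht'
    obtain ⟨g3, g4⟩ := p1 t⁻¹ (T.inv_mem ht)
    obtain ⟨g5, g6⟩ := p1 t ht
    have h2 := g4 (t • e) (hXs t (hTH ht) e heX)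
    rw [inv_smul_smul, hL.f1] at h2
    rw [mul_smul, g2 _ (hXs _ (hTH (T.inv_mem ht)) e heX), h1, mul_assoc, mul_comm (L.f (t • e)),
      ← h2, mul_one]
  have p3 : ∀ t, t ∈ kap T E ↔ t ∈ T ∧ L.f (t • e) = 1 := by
    intro t
    rw [kap, Subgroup.mem_inf, Subgroup.mem_iInf]
    constructor
    · rintro ⟨ht, h⟩
      refine ⟨ht, ?_⟩
      have h1 := h e
      rw [MulAction.mem_stabilizer_iff] at h1
      have h2 : t • e ∈ t • {z : S | (e, z) ∈ E} := by
        rw [smul_mem_smul_set_iff]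
        exact (p8 e e).2 ⟨heX, heX, rfl⟩
      rw [h1] at h2
      have h3 := ((p8 _ _).1 h2).2.2
      rw [← h3, hL.f1]
    · rintro ⟨ht, h⟩
      refine ⟨ht, fun y => ?_⟩
      rw [MulAction.mem_stabilizer_iff]
      have h5 : ∀ s ∈ T, L.f (s • e) = 1 → ∀ z, (y, z) ∈ E → (y, s • z) ∈ E := by
        intro s hs h' z hz
        obtain ⟨q1, q2, q3⟩ := (p8 _ _).1 hz
        refine (p8 _ _).2 ⟨q1, hXs s (hTH hs) z q2, ?_⟩
        rw [(p1 s hs).2 z q2, h', one_mul]
        exact q3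
      have h6 : L.f (t⁻¹ • e) = 1 := by
        have h7 := (p1 t⁻¹ (T.inv_mem ht)).2 (t • e) (hXs t (hTH ht) e heX)
        rw [inv_smul_smul, hL.f1, h, mul_one] at h7
        exact h7.symm
      ext z
      rw [mem_smul_set_iff_inv_smul_mem]
      constructor
      · intro hz
        have h8 := h5 t ht h _ hz
        rw [smul_inv_smul] at h8
        exact h8
      · intro hz
        exact h5 t⁻¹ (T.inv_mem ht) h6 z hz
  have p5 : U.D E := by
    have h1 := hL.rel
    have h2 := L.eq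
    rw [← h2] at h1
    exact h1
  have p6 : U.D (kap T E : Set G) := (hSTD U hact).2 T E hT p5
  have p7 : U.R (kap T E : Set G) + 1 ≤ U.R (T : Set G) := by
    have hle : kap T E ≤ T := inf_le_left
    by_contra hcon
    have h1 : U.R (T : Set G) ≤ U.R (kap T E : Set G) := by omega
    have h2 := (l_GRA U T (kap T E) hT p6 hle).2 h1
    let φ : T →* L.K :=
      { toFun := fun t => L.f ((t : G) • e)
        map_one' := by
          rw [Subgroup.coe_one, one_smul]
          exact hL.f1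
        map_mul' := by
          intro s t
          rw [Subgroup.coe_mul, mul_smul]
          exact (p1 s s.2).2 _ (hXs t (hTH t.2) e heX) }
    let ψ : T →* L.Kˣ := φ.toHomUnits
    have hψ : ∀ t : T, ((ψ t : L.Kˣ) : L.K) = L.f ((t : G) • e) := fun t => rfl
    have h3 : (kap T E).subgroupOf T = ψ.ker := by
      ext t
      rw [Subgroup.mem_subgroupOf, MonoidHom.mem_ker, p3, ← Units.val_inj, hψ, Units.val_one]
      exact ⟨fun h => h.2, fun h => ⟨t.2, h⟩⟩
    have h4 : ψ.range = ⊤ := by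
      rw [MonoidHom.range_eq_top]
      intro u
      obtain ⟨t, ht, h⟩ := p2 u u.ne_zero
      exact ⟨⟨t, ht⟩, Units.ext h⟩
    haveI := hL.inf
    haveI := ln_units L.K
    apply h2
    rw [Subgroup.relIndex, h3, Subgroup.index_ker, h4, Subgroup.card_top]
    exact Nat.card_eq_zero_of_infinite
  refine ⟨p1, p2, p3, ?_, p5, p6, p7, p8, ?_⟩
  · intro t ht
    have h1 : t • e = e := ht.2
    rw [p3]
    exact ⟨ht.1, by rw [h1, hL.f1]⟩
  · intro w hw h1 h2 y hy
    obtain ⟨a, b, ha, hab⟩ := hL.act w hw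
    have h3 := hab o hoX
    rw [h1, hL.f1, hL.f0, mul_zero, zero_add] at h3
    have h4 := hab e heX
    rw [h2, hL.f0, hL.f1, mul_one, ← h3] at h4
    have h5 : a = -1 := (eq_neg_of_add_eq_zero_left h4.symm)
    rw [hab y hy, h5, ← h3]
    ring

end Pool.Agent.H50.S
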